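import Pool.Agent.Lib.helper1.Rigid2

set_option autoImplicit false

namespace Pool.Agent.Results.MP_ab14aa_co.Yes
open Pool.Agent.Lib.helper1.Rigid2

/-- a continuous length-preserving motion that leaves the congruence class -/
def Flexible {n : ℕ} (G : SimpleGraph (Fin n)) (p : Fin n → EuclideanSpace ℝ (Fin 2)) : Prop :=
  ∃ γ : unitInterval → Fin n → EuclideanSpace ℝ (Fin 2), Continuous γ ∧ γ 0 = p ∧
    (∀ t u w, G.Adj u w → dist (γ t u) (γ t w) = dist (p u) (p w)) ∧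
    ∃ t, ¬ Congruent (γ t) p

def EL : List (Fin 8 × Fin 8) :=
  [(0, 1), (0, 3), (0, 7), (4, 1), (4, 3), (4, 7), (6, 1), (6, 3), (6, 7),
   (2, 1), (2, 3), (5, 4), (5, 6)]

def GG : SimpleGraph (Fin 8) where
  Adj u w := (u, w) ∈ EL ∨ (w, u) ∈ EL
  symm := ⟨fun _ _ h => h.symm⟩
  loopless := ⟨by decide⟩

noncomputable def pts (a b c d e f : ℝ) : Fin 8 → EuclideanSpace ℝ (Fin 2) :=
  ![!₂[c, d], !₂[a, b], !₂[0, b + e], !₂[-a, b], !₂[-c, d], !₂[-c - f, 0], !₂[-c, -d], !₂[-a, -b]]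

noncomputable def fa (t : ℝ) : ℝ := 1 + t / 10
noncomputable def fc (t : ℝ) : ℝ := 2 / fa t
noncomputable def fK (t : ℝ) : ℝ := 10 - fa t ^ 2 - fc t ^ 2
noncomputable def fb (t : ℝ) : ℝ := (√(fK t + 4) + √(fK t - 4)) / 2
noncomputable def fd (t : ℝ) : ℝ := (√(fK t + 4) - √(fK t - 4)) / 2
noncomputable def fe (t : ℝ) : ℝ := √(5 / 4 - fa t ^ 2)
noncomputable def ff (t : ℝ) : ℝ := √(5 / 4 - fd t ^ 2)

lemma facts (t : ℝ) (h0 : 0 ≤ t) (h1 : t ≤ 1) : fa t * fc t = 2 ∧ fb t * fd t = 2 ∧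
    fa t ^ 2 + fb t ^ 2 + fc t ^ 2 + fd t ^ 2 = 10 ∧ fa t ^ 2 + fe t ^ 2 = 5 / 4 ∧
    fd t ^ 2 + ff t ^ 2 = 5 / 4 := by
  have a1 : 1 ≤ fa t := by unfold fa; linarith
  have a2 : fa t ≤ 11 / 10 := by unfold fa; linarith
  have e1 : fa t * fc t = 2 := by unfold fc; field_simp
  have hK : 5 ≤ fK t := by
    unfold fK
    have h3 : (fa t ^ 2 - 1) * (4 - fa t ^ 2) ≥ 0 := mul_nonneg (by nlinarith) (by nlinarith)
    have h4 : 0 < fa t ^ 2 := by positivity
    have h5 : fa t ^ 2 * fc t ^ 2 = 4 := by rw [← mul_pow, e1]; norm_num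
    by_contra hc
    push Not at hc
    nlinarith
  have s1 : √(fK t + 4) ^ 2 = fK t + 4 := Real.sq_sqrt (by linarith)
  have s2 : √(fK t - 4) ^ 2 = fK t - 4 := Real.sq_sqrt (by linarith)
  have l1 : 3 ≤ √(fK t + 4) := Real.le_sqrt_of_sq_le (by linarith)
  have l2 : 1 ≤ √(fK t - 4) := Real.le_sqrt_of_sq_le (by linarith)
  have e2 : fb t * fd t = 2 := by unfold fb fd; linear_combination s1 / 4 - s2 / 4
  have b2 : 2 ≤ fb t := by unfold fb; linarith
  have d0 : 0 ≤ fd t := by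
    by_contra hc
    push Not at hc
    nlinarith
  have d1 : fd t ≤ 1 := by
    by_contra hc
    push Not at hc
    nlinarith
  refine ⟨e1, e2, ?_, ?_, ?_⟩
  · have : fK t = 10 - fa t ^ 2 - fc t ^ 2 := rfl
    unfold fb fd; linear_combination s1 / 2 + s2 / 2 + this
  · unfold fe; rw [Real.sq_sqrt (by nlinarith)]; ring
  · unfold ff; rw [Real.sq_sqrt (by nlinarith)]; ring

lemma at0 : fa 0 = 1 ∧ fb 0 = 2 ∧ fc 0 = 2 ∧ fd 0 = 1 ∧ fe 0 = 1 / 2 ∧ ff 0 = 1 / 2 := by
  have a : fa 0 = 1 := by simp [fa]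
  have c : fc 0 = 2 := by simp [fc, a]
  have K : fK 0 = 5 := by rw [fK, a, c]; norm_num
  have s1 : √(fK 0 + 4) = 3 := by
    rw [K, show (5 : ℝ) + 4 = 3 ^ 2 by norm_num]; exact Real.sqrt_sq (by norm_num)
  have s2 : √(fK 0 - 4) = 1 := by rw [K]; norm_num
  have d : fd 0 = 1 := by rw [fd, s1, s2]; norm_num
  have h : √(5 / 4 - (1 : ℝ) ^ 2) = 1 / 2 := by
    rw [show (5 : ℝ) / 4 - 1 ^ 2 = (1 / 2) ^ 2 by norm_num]; exact Real.sqrt_sq (by norm_num)
  exact ⟨a, by rw [fb, s1, s2]; norm_num, c, d, by rw [fe, a, h], by rw [ff, d, h]⟩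

lemma cont : Continuous fun t : unitInterval =>
    pts (fa t) (fb t) (fc t) (fd t) (fe t) (ff t) := by
  have a : Continuous fun t : unitInterval => fa t := by unfold fa; fun_prop
  have c : Continuous fun t : unitInterval => fc t :=
    continuous_const.div a fun t => by have := t.2.1; unfold fa; positivity
  have K : Continuous fun t : unitInterval => fK t := by unfold fK; fun_prop
  have b : Continuous fun t : unitInterval => fb t := by unfold fb; fun_prop
  have d : Continuous fun t : unitInterval => fd t := by unfold fd; fun_prop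
  have e : Continuous fun t : unitInterval => fe t := by unfold fe; fun_prop
  have f : Continuous fun t : unitInterval => ff t := by unfold ff; fun_prop
  refine continuous_pi fun v => ?_
  fin_cases v <;> simp only [pts] <;> simp <;> fun_prop

theorem result : ∃ (n : ℕ) (G : SimpleGraph (Fin n)) (p : Fin n → EuclideanSpace ℝ (Fin 2)),
    3 ≤ n ∧ (∀ i : Fin n, G.Adj i (finRotate n i)) ∧
    (∀ q : Fin n → EuclideanSpace ℝ (Fin 2),
      AlgebraicIndependent ℚ (fun c : Fin n × Fin 2 => q c.1 c.2) → ¬ Flexible G q) ∧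
    (∀ i j k : Fin n, i < j → j < k →
      0 < (p j 0 - p i 0) * (p k 1 - p i 1) - (p j 1 - p i 1) * (p k 0 - p i 0)) ∧
    Flexible G p := by
  refine ⟨8, GG, pts 1 2 2 1 (1 / 2) (1 / 2), by norm_num, ?_, ?_, ?_, ?_⟩
  · intro i
    unfold GG
    revert i
    decide
  · rintro q hq ⟨γ, hγ, h0, hd, t, ht⟩
    refine ht (generic_rigid GG 0 1 (by unfold GG; decide)
      (fun c => (![![0, 0], ![1, 0], ![1, 2], ![0, 1], ![2, 1], ![3, 1], ![2, 3], ![1, 1]] :
        Fin 8 → Fin 2 → ℝ) c.1 c.2) ?_ q hq γ hγ h0 hd t)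
    intro d h hp
    have e1 := h 0 3 (by unfold GG; decide)
    have e2 := h 0 7 (by unfold GG; decide)
    have e3 := h 4 1 (by unfold GG; decide)
    have e4 := h 4 3 (by unfold GG; decide)
    have e5 := h 4 7 (by unfold GG; decide)
    have e6 := h 6 1 (by unfold GG; decide)
    have e7 := h 6 3 (by unfold GG; decide)
    have e8 := h 6 7 (by unfold GG; decide)
    have e9 := h 2 1 (by unfold GG; decide)
    have e10 := h 2 3 (by unfold GG; decide)
    have e11 := h 5 4 (by unfold GG; decide)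
    have e12 := h 5 6 (by unfold GG; decide)
    have p0 := hp 0
    have p1 := hp 1
    simp [p0.1, p0.2, p1.1, p1.2] at e1 e2 e3 e4 e5 e6 e7 e8 e9 e10 e11 e12
    norm_num at e1 e2 e3 e4 e5 e6 e7 e8 e9 e10 e11 e12
    funext ⟨v, i⟩
    fin_cases v <;> fin_cases i <;> simp <;> linarith [p0.1, p0.2, p1.1, p1.2]
  · intro i j k h1 h2
    fin_cases i <;> fin_cases j <;> simp at h1 <;> fin_cases k <;> simp at h2 <;>
      simp [pts] <;> norm_num
  · refine ⟨_, cont, ?_, ?_, 1, ?_⟩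
    · obtain ⟨a, b, c, d, e, f⟩ := at0
      simp only [Set.Icc.coe_zero, a, b, c, d, e, f]
    · intro t u w huw
      obtain ⟨h1, h2, h3, h4, h5⟩ := facts t t.2.1 t.2.2
      rw [dist_eq_iff]
      have key : ∀ x ∈ EL,
          (pts (fa t) (fb t) (fc t) (fd t) (fe t) (ff t) x.1 0 -
            pts (fa t) (fb t) (fc t) (fd t) (fe t) (ff t) x.2 0) ^ 2 +
          (pts (fa t) (fb t) (fc t) (fd t) (fe t) (ff t) x.1 1 -
            pts (fa t) (fb t) (fc t) (fd t) (fe t) (ff t) x.2 1) ^ 2 =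
          (pts 1 2 2 1 (1 / 2) (1 / 2) x.1 0 - pts 1 2 2 1 (1 / 2) (1 / 2) x.2 0) ^ 2 +
          (pts 1 2 2 1 (1 / 2) (1 / 2) x.1 1 - pts 1 2 2 1 (1 / 2) (1 / 2) x.2 1) ^ 2 := by
        intro x hx
        simp only [EL, List.mem_cons, List.not_mem_nil, or_false] at hx
        rcases hx with rfl | rfl | rfl | rfl | rfl | rfl | rfl | rfl | rfl | rfl | rfl | rfl | rfl <;>
          simp [pts] <;> nlinarith
      rcases huw with h | h
      · exact key _ h
      · have := key _ h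
        simp only at this
        linear_combination this
    · intro h
      have := (congruent_iff_dist_eq.1 h) 1 3
      rw [dist_eq_iff] at this
      simp [pts, fa] at this
      norm_num at this

end Pool.Agent.Results.MP_ab14aa_co.Yes
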